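import Pool.Agent.H524Z.Tile.Main

/-!
# A rotund and smooth normed space tiled by balls

There is an infinite dimensional real normed space whose norm is both rotund and smooth and which
is covered by pairwise disjoint closed balls of radius one.
-/

set_option autoImplicit false

theorem Pool.Agent.Results.MP_2a41cd_an.ARotundSmoothTiling.result :
    ∃ (X : Type) (_ : NormedAddCommGroup X) (_ : NormedSpace ℝ X),
      ¬ FiniteDimensional ℝ X ∧
      (∀ x y : X, ‖x‖ = 1 → ‖y‖ = 1 → x ≠ y → ‖(1 / 2 : ℝ) • (x + y)‖ < 1) ∧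
      (∀ x : X, ‖x‖ = 1 → ∃! f : X →L[ℝ] ℝ, ‖f‖ = 1 ∧ f x = 1) ∧
      ∃ C : Set X, (⋃ c ∈ C, Metric.closedBall c 1) = Set.univ ∧
        C.PairwiseDisjoint fun c => Metric.closedBall c 1 :=
  Pool.Agent.H524Z.Tile.main
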